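import Pool.Agent.K1H95.EO.Stm

/-!
Task EO-ROOT: the root lemma.
-/

set_option autoImplicit false

open Cardinal

namespace Pool.Agent.K1H29.EO

open Pool.Agent.K1H95.EO

theorem card_opt (κ : Cardinal.{0}) (J : Type) (hκ : ℵ₀ ≤ κ) (hJ : #J ≤ κ) :
    #(Option (J × ℤ)) ≤ κ := by
  rw [Cardinal.mk_option]
  have h1 : #(J × ℤ) ≤ κ := by
    rw [Cardinal.mk_prod, Cardinal.lift_id, Cardinal.lift_id]
    have h2 : #ℤ ≤ κ := by
      rw [Cardinal.mk_int]
      exact hκ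
    calc #J * #ℤ ≤ κ * κ := mul_le_mul' hJ h2
      _ = κ := Cardinal.mul_eq_self hκ
  calc #(J × ℤ) + 1 ≤ κ + κ := add_le_add h1 (le_trans Cardinal.one_le_aleph0 hκ)
    _ = κ := Cardinal.add_eq_self hκ

theorem sub_add_single {I : Type} (v r : I →₀ ℤ) (y : I) (c : ℤ) (h : (v - r) y = c) :
    v - (r + Finsupp.single y c) = (v - r).erase y := by
  classical
  ext z
  by_cases hz : z = y
  · subst hz
    rw [Finsupp.erase_same]
    simp only [Finsupp.coe_sub, Finsupp.coe_add, Pi.sub_apply, Pi.add_apply,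
      Finsupp.single_eq_same] at h ⊢
    omega
  · rw [Finsupp.erase_ne hz]
    simp only [Finsupp.coe_sub, Finsupp.coe_add, Pi.sub_apply, Pi.add_apply]
    rw [Finsupp.single_eq_of_ne hz]
    ring

theorem t_ROOT (hPIG : S_PIG) : S_ROOT := by
  classical
  intro κ I _ hκ hI F hF
  let P : ℕ → Prop := fun n => ∃ r : I →₀ ℤ, ∃ F' : Set (I →₀ ℤ), F' ⊆ F ∧ κ < #F' ∧
    ∀ v ∈ F', (v - r).support.card = n
  have hex : ∃ n, P n := by
    obtain ⟨b, hb⟩ := hPIG κ (I →₀ ℤ) ℕ (fun v => v.support.card) F hκ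
      (by rw [Cardinal.mk_nat]; exact hκ) hF
    refine ⟨b, 0, _, ?_, hb, ?_⟩
    · intro v hv
      exact hv.1
    · intro v hv
      rw [sub_zero]
      exact hv.2
  obtain ⟨r, F', hF'F, hF'κ, hcard⟩ := Nat.find_spec hex
  have hmin := fun m (hm : m < Nat.find hex) => Nat.find_min hex hm
  set n := Nat.find hex with hn
  refine ⟨r, F', hF'F, hF'κ, ?_⟩
  intro ξ
  by_contra hcon
  rw [not_le] at hcon
  let f : (I →₀ ℤ) → Option (Set.Iic ξ × ℤ) := fun v =>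
    if h : ∃ y ∈ (v - r).support, y ≤ ξ then
      some (⟨h.choose, h.choose_spec.2⟩, (v - r) h.choose) else none
  obtain ⟨b, hb⟩ := hPIG κ (I →₀ ℤ) (Option (Set.Iic ξ × ℤ)) f _ hκ (card_opt κ _ hκ (hI ξ)) hcon
  have hne : ({v : I →₀ ℤ | v ∈ {v : I →₀ ℤ | v ∈ F' ∧ ∃ y ∈ (v - r).support, y ≤ ξ} ∧
      f v = b}).Nonempty := by
    rw [Set.nonempty_iff_ne_empty]
    intro h0
    rw [h0, Cardinal.mk_eq_zero] at hb
    exact absurd hb (not_lt.2 zero_le)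
  obtain ⟨v0, hv0⟩ := hne
  obtain ⟨⟨hv0F, hv0e⟩, hv0b⟩ := hv0
  have hf0 : f v0 = some (⟨hv0e.choose, hv0e.choose_spec.2⟩, (v0 - r) hv0e.choose) := by
    simp only [f]
    rw [dif_pos hv0e]
  set y0 := hv0e.choose with hy0
  have hall : ∀ v ∈ {v : I →₀ ℤ | v ∈ {v : I →₀ ℤ | v ∈ F' ∧ ∃ y ∈ (v - r).support, y ≤ ξ} ∧
      f v = b}, v ∈ F' ∧ y0 ∈ (v - r).support ∧ (v - r) y0 = (v0 - r) y0 := by
    rintro v ⟨⟨hvF, hve⟩, hvb⟩
    have hf : f v = some (⟨hve.choose, hve.choose_spec.2⟩, (v - r) hve.choose) := by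
      simp only [f]
      rw [dif_pos hve]
    have heq := hf.symm.trans (hvb.trans (hv0b.symm.trans hf0))
    rw [Option.some.injEq, Prod.mk.injEq] at heq
    obtain ⟨h1', h2⟩ := heq
    have h1 : hve.choose = y0 := congrArg Subtype.val h1'
    refine ⟨hvF, ?_, ?_⟩
    · rw [← h1]
      exact hve.choose_spec.1
    · rw [h1] at h2
      exact h2
  have hn1 : 1 ≤ n := by
    have h1 := hall v0 ⟨⟨hv0F, hv0e⟩, hv0b⟩
    have h2 := hcard v0 hv0F
    rw [← h2]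
    exact Finset.card_pos.2 ⟨y0, h1.2.1⟩
  apply hmin (n - 1) (by omega)
  refine ⟨r + Finsupp.single y0 ((v0 - r) y0), _, ?_, hb, ?_⟩
  · intro v hv
    exact hF'F (hall v hv).1
  · intro v hv
    obtain ⟨h1, h2, h3⟩ := hall v hv
    rw [sub_add_single v r y0 _ h3, Finsupp.support_erase, Finset.card_erase_of_mem h2, hcard v h1]

end Pool.Agent.K1H29.EO
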